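import Mathlib
import Pool.Agent.J4.H38.DV.Defs
import Pool.Agent.J4.H38.SR2.Fix2
import Pool.Agent.J4.H38.SR2.Gold1

/-! Project DV: the density of one shift (`gg_bd`), the number of the shifts (`AW_card`), the weighted number of the prime powers
with rough positions (`xcnt`). -/

set_option autoImplicit false

namespace Pool.Agent.J4.H14.DV

open Finset Filter
open Pool.Agent.Y822 (Ro ro)
open Pool.Agent.H373R2.T7 (pz Vz mem_pz rhoA PerA lam_fund)
open Pool.Agent.J4.H38.SR2 (sh card_sh QW perA_QW Pq)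
open Pool.Agent.J4.H38.DV (AW GG Fs)

lemma tel (y : ℕ) (hy : 2 ≤ y) :
    ∏ n ∈ Icc 3 y, (1 - 1 / ((n : ℝ) - 1) ^ 2) = (y : ℝ) / (2 * ((y : ℝ) - 1)) := by
  induction y, hy using Nat.le_induction with
  | base => norm_num
  | succ y hy ih =>
    have hy0 : (2 : ℝ) ≤ y := by exact_mod_cast hy
    rw [prod_Icc_succ_top (by omega : 3 ≤ y + 1), ih]
    push_cast
    have h1 : (y : ℝ) ≠ 0 := by positivity
    have h2 : (y : ℝ) - 1 ≠ 0 := by
      have : (0 : ℝ) < y - 1 := by linarith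
      exact this.ne'
    have h3 : (y : ℝ) + 1 - 1 ≠ 0 := by
      rw [add_sub_cancel_right]; exact h1
    field_simp
    ring

theorem gg_bd : ∀ w y : ℕ, 2 ≤ w → w ≤ y → 1 / 2 * Vz y ≤ GG w y ∧ GG w y ≤ 1 := by
  intro w y hw hwy
  have hS : (pz y).filter (fun p => w < p) ⊆ Icc 3 y := by
    intro p hp
    rw [mem_filter, mem_pz] at hp
    rw [mem_Icc]
    omega
  have hge : ∀ p ∈ (pz y).filter (fun p => w < p), (3 : ℝ) ≤ p := by
    intro p hp
    have := (mem_Icc.1 (hS hp)).1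
    exact_mod_cast this
  have hfac : ∀ n ∈ Icc 3 y, 0 ≤ 1 - 1 / ((n : ℝ) - 1) ^ 2 ∧ 1 - 1 / ((n : ℝ) - 1) ^ 2 ≤ 1 := by
    intro n hn
    have h3 : (3 : ℝ) ≤ n := by exact_mod_cast (mem_Icc.1 hn).1
    have h4 : (1 : ℝ) ≤ ((n : ℝ) - 1) ^ 2 := by nlinarith
    have h5 : 0 ≤ 1 / ((n : ℝ) - 1) ^ 2 := by positivity
    have h6 : 1 / ((n : ℝ) - 1) ^ 2 ≤ 1 := by
      rw [div_le_one (by linarith)]; exact h4
    constructor <;> linarith
  have key : (1 / 2 : ℝ) ≤ ∏ p ∈ (pz y).filter (fun p => w < p), (1 - 1 / ((p : ℝ) - 1) ^ 2) := by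
    have h1 := prod_sdiff (f := fun p : ℕ => 1 - 1 / ((p : ℝ) - 1) ^ 2) hS
    have h2 : ∏ p ∈ Icc 3 y \ (pz y).filter (fun p => w < p), (1 - 1 / ((p : ℝ) - 1) ^ 2) ≤ 1 :=
      prod_le_one (fun p hp => (hfac p (mem_sdiff.1 hp).1).1) (fun p hp => (hfac p (mem_sdiff.1 hp).1).2)
    have h3 : 0 ≤ ∏ p ∈ (pz y).filter (fun p => w < p), (1 - 1 / ((p : ℝ) - 1) ^ 2) :=
      prod_nonneg fun p hp => (hfac p (hS hp)).1
    have h4 := tel y (hw.trans hwy)
    have hy2 : (2 : ℝ) ≤ y := by exact_mod_cast hw.trans hwy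
    have h5 : (1 / 2 : ℝ) ≤ (y : ℝ) / (2 * ((y : ℝ) - 1)) := by
      rw [div_le_div_iff₀ (by norm_num) (by linarith)]
      linarith
    rw [h4] at h1
    calc (1 / 2 : ℝ) ≤ (y : ℝ) / (2 * ((y : ℝ) - 1)) := h5
      _ = _ := h1.symm
      _ ≤ 1 * ∏ p ∈ (pz y).filter (fun p => w < p), (1 - 1 / ((p : ℝ) - 1) ^ 2) :=
          mul_le_mul_of_nonneg_right h2 h3
      _ = _ := one_mul _
  have hV : Vz y ≤ ∏ p ∈ (pz y).filter (fun p => w < p), (1 - 1 / (p : ℝ)) := by
    unfold Vz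
    have hb : ∀ p ∈ pz y, 0 ≤ 1 - 1 / (p : ℝ) ∧ 1 - 1 / (p : ℝ) ≤ 1 := by
      intro p hp
      have h2 : (2 : ℝ) ≤ p := by exact_mod_cast (mem_pz.1 hp).2.two_le
      have h3 : 1 / (p : ℝ) ≤ 1 := by rw [div_le_one (by linarith)]; linarith
      have h4 : 0 ≤ 1 / (p : ℝ) := by positivity
      constructor <;> linarith
    rw [← prod_filter_mul_prod_filter_not (pz y) (fun p => w < p) (fun p : ℕ => 1 - 1 / (p : ℝ))]
    refine mul_le_of_le_one_right (prod_nonneg fun p hp => (hb p (mem_filter.1 hp).1).1) ?_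
    exact prod_le_one (fun p hp => (hb p (mem_filter.1 hp).1).1) (fun p hp => (hb p (mem_filter.1 hp).1).2)
  constructor
  · have e : GG w y = (∏ p ∈ (pz y).filter (fun p => w < p), (1 - 1 / ((p : ℝ) - 1) ^ 2)) *
        ∏ p ∈ (pz y).filter (fun p => w < p), (1 - 1 / (p : ℝ)) := by
      unfold GG
      rw [← prod_mul_distrib]
      refine prod_congr rfl fun p hp => ?_
      have h3 := hge p hp
      have h1 : (p : ℝ) ≠ 0 := by positivity
      have h2 : (p : ℝ) - 1 ≠ 0 := by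
        have : (0 : ℝ) < p - 1 := by linarith
        exact this.ne'
      field_simp
      ring
    rw [e]
    have hV0 : 0 ≤ Vz y := by
      unfold Vz
      refine prod_nonneg fun p hp => ?_
      have h2 : (2 : ℝ) ≤ p := by exact_mod_cast (mem_pz.1 hp).2.two_le
      have h3 : 1 / (p : ℝ) ≤ 1 := by rw [div_le_one (by linarith)]; linarith
      linarith
    exact mul_le_mul key hV hV0 (le_trans (by norm_num) key)
  · unfold GG
    refine prod_le_one (fun p hp => ?_) (fun p hp => ?_)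
    · have h3 := hge p hp
      have h4 : 1 / ((p : ℝ) - 1) ≤ 1 := by rw [div_le_one (by linarith)]; linarith
      linarith
    · have h3 := hge p hp
      have h4 : 0 ≤ 1 / ((p : ℝ) - 1) := div_nonneg (by norm_num) (by linarith)
      linarith

theorem AW_card (w N H : ℕ) : ((AW w N H).card : ℝ) ≤ H ∧
    (H : ℝ) ≤ ((∏ p ∈ pz w, p : ℕ) : ℝ) * ((AW w N H).card + 1) := by
  obtain ⟨W, hW⟩ : ∃ W, W = ∏ p ∈ pz w, p := ⟨_, rfl⟩
  have hW1 : 0 < W := by
    rw [hW]
    exact prod_pos fun p hp => (mem_pz.1 hp).2.pos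
  constructor
  · have h : (AW w N H).card ≤ H := by
      unfold AW
      exact (card_filter_le _ _).trans (by simp)
    exact_mod_cast h
  · rw [← hW]
    have h1 : H / W ≤ (AW w N H).card := by
      have h2 : (image (fun q => q * W + (W - N % W)) (range (H / W))).card = H / W := by
        rw [card_image_of_injective, card_range]
        intro a b hab
        have h3 : a * W = b * W := by
          have := hab
          simp only at this
          omega
        exact Nat.eq_of_mul_eq_mul_right hW1 h3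
      rw [← h2]
      refine card_le_card ?_
      intro t ht
      obtain ⟨q, hq, rfl⟩ := mem_image.1 ht
      rw [mem_range] at hq
      unfold AW
      rw [mem_filter, mem_Icc, ← hW]
      have hm := Nat.mod_lt N hW1
      have h4 : (q + 1) * W ≤ H := (Nat.mul_le_mul_right W hq).trans (Nat.div_mul_le_self H W)
      refine ⟨⟨by omega, ?_⟩, ?_⟩
      · rw [add_mul, one_mul] at h4
        omega
      · have h5 : N + (q * W + (W - N % W)) = W * (N / W + q + 1) := by
          have h6 := Nat.div_add_mod N W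
          have h7 : W * (N / W + q + 1) = W * (N / W) + q * W + W := by ring
          omega
        rw [h5]
        exact dvd_mul_right _ _
    have h2 : H < W * (H / W + 1) := Nat.lt_mul_div_succ H hW1
    have h3 : H ≤ W * ((AW w N H).card + 1) := h2.le.trans (Nat.mul_le_mul_left W (by omega))
    exact_mod_cast h3

theorem xcnt (k : ℕ) (η : ℝ) (hη : 0 < η) : ∃ K : ℕ, 1 ≤ K ∧ ∀ U : ℕ, ∃ x0 : ℕ, ∀ᶠ N : ℕ in atTop, ∀ y : ℕ, x0 ≤ y →
    y ^ K ≤ N → ∀ T : Finset ℕ, 0 ∉ T → T.card ≤ k →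
    |Fs (fun m => ArithmeticFunction.vonMangoldt m) N y T - N * Pq (QW (sh N T)) y| ≤
      η * (N * Pq (QW (sh N T)) y) + N / Real.log N ^ U := by
  classical
  obtain ⟨K, hK, h⟩ := lam_fund (k + 1) (by omega) η hη
  refine ⟨K, hK, fun U => ?_⟩
  obtain ⟨x0, hx0⟩ := h U
  refine ⟨x0, Eventually.of_forall fun N y hy hyN T _ hT => ?_⟩
  have h1 := hx0 N y hy hyN (QW (sh N T)) (perA_QW _ k (by rw [card_sh]; exact hT)) N le_rfl
  have h2 : Fs (fun m => ArithmeticFunction.vonMangoldt m) N y T =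
      ∑ n ∈ (Icc 1 N).filter (fun n : ℕ => ∀ p ∈ pz y, ¬ QW (sh N T) p n), ArithmeticFunction.vonMangoldt n := by
    unfold Fs
    rw [sum_filter]
    refine sum_congr rfl fun m hm => ?_
    have hmN := (mem_Icc.1 hm).2
    have key : (∀ p ∈ pz y, ¬ QW (sh N T) p m) ↔ ∀ t ∈ T, Ro y (N - m + t) := by
      unfold QW sh Ro
      constructor
      · intro h3 t ht p hp hpy hd
        refine h3 p (mem_pz.2 ⟨hpy, hp⟩) ⟨t + N, mem_image_of_mem _ ht, ?_⟩
        refine ((Nat.modEq_iff_dvd' (by omega)).2 ?_).symm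
        rwa [show t + N - m = N - m + t by omega]
      · rintro h3 p hp ⟨w, hw, hwm⟩
        obtain ⟨t, ht, rfl⟩ := mem_image.1 hw
        refine h3 t ht p (mem_pz.1 hp).2 (mem_pz.1 hp).1 ?_
        have := (Nat.modEq_iff_dvd' (by omega)).1 hwm.symm
        rwa [show t + N - m = N - m + t by omega] at this
    by_cases hh : ∀ t ∈ T, Ro y (N - m + t)
    · rw [if_pos (key.2 hh), prod_eq_one, mul_one]
      intro t ht
      unfold ro
      rw [if_pos (hh t ht)]
    · rw [if_neg (fun h4 => hh (key.1 h4))]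
      push Not at hh
      obtain ⟨t, ht, hn⟩ := hh
      rw [prod_eq_zero ht, mul_zero]
      unfold ro
      rw [if_neg hn]
  rw [h2]
  unfold Pq
  exact h1

end Pool.Agent.J4.H14.DV
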